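import Pool.Agent.TH894.GK1

/-! # Hamming spheres: general property, strict windows (after the starting file
`Results/MP_73b532_nt/HammingSpheres.lean`) -/

set_option autoImplicit false

namespace Pool.Agent.Q145.GB2

open Finset Pool.Agent.H560R3.GB

/-- The digit number `i` (counted from the right, beginning with `0`) of `n` in base `b`. -/
def digit (b i n : ℕ) : ℕ := n / b ^ i % b

/-- The number of digits of `n ≥ 1` in base `b`. -/
def len (b n : ℕ) : ℕ := Nat.log b n + 1

open Classical in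
/-- The numbers `n` (with at most as many digits as `N`) whose digits in base `b` differ from the digits of
`N` at exactly `r` positions, where the first and the last digit are the same as those of `N` and every
digit which differs from the digit of `N` belongs to the set `F i` of the admissible new digits at its
position `i`. (If all digits are admissible, then this is the Hamming sphere of radius `r` around `N` in
the set of the numbers which have the same first and last digit as `N`.) -/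
noncomputable def sphere (b N : ℕ) (F : ℕ → Finset ℕ) (r : ℕ) : Finset ℕ :=
  (range (b ^ len b N)).filter (fun n =>
    (∀ i ∈ range (len b N), digit b i n ≠ digit b i N → i ∈ Ico 1 (len b N - 1) ∧ digit b i n ∈ F i) ∧
    ((range (len b N)).filter (fun i => digit b i n ≠ digit b i N)).card = r)

open Classical in
/-- The number of the even members of the sphere which do not satisfy `Holds ε`. -/
noncomputable def exceptions (P : ℕ → Prop) (b N : ℕ) (F : ℕ → Finset ℕ) (r : ℕ) : ℕ :=
  ((sphere b N F r).filter (fun n => Even n ∧ ¬ P n)).card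

lemma conv (b : ℕ) (hb : 2 ≤ b) : ∃ N₀ : ℕ, ∀ N : ℕ, N₀ ≤ N → (len b N : ℝ) / Real.log (len b N) ≤
    4 / Real.log b * (Real.log N / Real.log (Real.log N)) := by
  have hlb : 0 < Real.log b := Real.log_pos (by exact_mod_cast (by omega : 1 < b))
  obtain ⟨N₁, h1⟩ := Pool.Agent.H373R2.T7.ev_L' (Real.log b ^ 2 + Real.log b + 3)
  refine ⟨N₁ + b, fun N hN => ?_⟩
  have hL := h1 N (by omega)
  obtain ⟨L, hLd⟩ : ∃ L, L = Real.log N := ⟨_, rfl⟩
  rw [← hLd] at hL ⊢
  have hL3 : 3 ≤ L := by nlinarith [sq_nonneg (Real.log b)]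
  have hL0 : 0 < L := by linarith
  have hN0 : N ≠ 0 := by omega
  have hNr : (0 : ℝ) < N := by exact_mod_cast Nat.pos_of_ne_zero hN0
  have hbr : (0 : ℝ) < b := by exact_mod_cast (by omega : 0 < b)
  have k1 : ((Nat.log b N : ℕ) : ℝ) * Real.log b ≤ L := by
    have h2 : b ^ Nat.log b N ≤ N := Nat.pow_log_le_self b hN0
    have h3 : Real.log ((b : ℝ) ^ Nat.log b N) ≤ Real.log N := by
      apply Real.log_le_log (by positivity)
      exact_mod_cast h2
    rw [Real.log_pow] at h3
    rw [hLd]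
    exact h3
  have k2 : L ≤ (len b N : ℝ) * Real.log b := by
    have h2 : N < b ^ (Nat.log b N + 1) := Nat.lt_pow_succ_log_self (by omega) N
    have h3 : Real.log N ≤ Real.log ((b : ℝ) ^ (Nat.log b N + 1)) := by
      apply Real.log_le_log hNr
      exact_mod_cast h2.le
    rw [Real.log_pow] at h3
    rw [hLd]
    unfold len
    exact h3
  have k3 : (len b N : ℝ) * Real.log b ≤ 2 * L := by
    have h2 : (len b N : ℝ) = (Nat.log b N : ℕ) + 1 := by unfold len; push_cast; ring
    rw [h2]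
    nlinarith [sq_nonneg (Real.log b)]
  have hlen0 : (0 : ℝ) < len b N := by
    by_contra hcon
    push_neg at hcon
    nlinarith
  -- the logarithm of the number of digits
  have k4 : √L ≤ len b N := by
    have h2 : Real.log b ≤ √L := by
      apply Real.le_sqrt_of_sq_le
      linarith
    have h3 : √L * √L = L := Real.mul_self_sqrt hL0.le
    have h4 : √L * Real.log b ≤ (len b N : ℝ) * Real.log b := by
      calc √L * Real.log b ≤ √L * √L := mul_le_mul_of_nonneg_left h2 (Real.sqrt_nonneg _)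
        _ = L := h3
        _ ≤ _ := k2
    exact le_of_mul_le_mul_right h4 hlb
  have hsq1 : 0 < √L := Real.sqrt_pos.2 hL0
  have hll : 0 < Real.log L := Real.log_pos (by linarith)
  have k5 : Real.log L ≤ 2 * Real.log (len b N) := by
    have h2 := Real.log_le_log hsq1 k4
    rw [Real.log_sqrt hL0.le] at h2
    linarith
  have hlk : 0 < Real.log (len b N) := by linarith
  have e1 : 4 / Real.log b * (L / Real.log L) = (4 * L) / (Real.log b * Real.log L) := by
    rw [div_mul_div_comm]
  rw [e1, div_le_div_iff₀ hlk (by positivity)]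
  calc (len b N : ℝ) * (Real.log b * Real.log L) = (len b N * Real.log b) * Real.log L := by ring
    _ ≤ (2 * L) * (2 * Real.log (len b N)) := mul_le_mul k3 k5 hll.le (by linarith)
    _ = 4 * L * Real.log (len b N) := by ring

theorem spheres (Holds : ℝ → ℕ → Prop) (holds_of : ∀ ε : ℝ, 0 < ε → ∃ (η : ℝ) (n₀ : ℕ), 0 < η ∧ ∀ n : ℕ, n₀ ≤ n → Even n →
    Pool.Agent.TH894.SM.Good η n → Holds ε n) (b : ℕ) (hb : 2 ≤ b) : ∃ c : ℝ, 0 < c ∧ ∀ ε : ℝ, 0 < ε → ∃ (C : ℝ) (N₀ : ℕ), 0 < C ∧
    ∀ N : ℕ, N₀ ≤ N → ∀ r : ℕ, C * (Real.log N / Real.log (Real.log N)) ≤ r → (r : ℝ) ≤ c * Real.log N →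
    ∀ (m : ℕ) (F : ℕ → Finset ℕ), 1 ≤ m → (∀ i, F i ⊆ range b ∧ digit b i N ∉ F i ∧ (F i).card = m) →
      (exceptions (Holds ε) b N F r : ℝ) ≤ ε * (sphere b N F r).card := by
  classical
  obtain ⟨R, hR, H⟩ := Pool.Agent.TH894.SM.few_uniform b hb
  have hbr : (2 : ℝ) ≤ b := by exact_mod_cast hb
  have hRr : (1 : ℝ) ≤ R := by exact_mod_cast hR
  have hlb : 0 < Real.log b := Real.log_pos (by linarith)
  refine ⟨1 / (R * b), by positivity, fun ε hε => ?_⟩
  obtain ⟨η, n₀, hη, hgood⟩ := holds_of ε hε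
  obtain ⟨C, k₀, hC, h1⟩ := H η ε hη hε
  obtain ⟨N₁, hconv⟩ := conv b hb
  refine ⟨4 * C / Real.log b, N₁ + b ^ k₀ + b * n₀ + 2, by positivity, fun N hN r hr hr' m F hm hF => ?_⟩
  obtain ⟨K, hK⟩ : ∃ K, K = len b N := ⟨_, rfl⟩
  have hN0 : N ≠ 0 := by omega
  have hKk : k₀ ≤ K := by
    have : k₀ ≤ Nat.log b N := Nat.le_log_of_pow_le (by omega) (by omega)
    rw [hK]
    unfold len
    omega
  have hNl : b ^ (K - 1) ≤ N := by
    rw [hK]
    unfold len
    exact Nat.pow_log_le_self b hN0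
  have hNu : N < b ^ K := by
    rw [hK]
    unfold len
    exact Nat.lt_pow_succ_log_self (by omega) N
  have hrl : C * K / Real.log K ≤ r := by
    have h2 := hconv N (by omega)
    rw [← hK] at h2
    calc C * K / Real.log K = C * (K / Real.log K) := by ring
      _ ≤ C * (4 / Real.log b * (Real.log N / Real.log (Real.log N))) := mul_le_mul_of_nonneg_left h2 hC.le
      _ = 4 * C / Real.log b * (Real.log N / Real.log (Real.log N)) := by ring
      _ ≤ r := hr
  have hru : R * r ≤ K := by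
    have h2 : Real.log N ≤ K * Real.log b := by
      have h3 : Real.log N ≤ Real.log ((b : ℝ) ^ K) := by
        apply Real.log_le_log (by exact_mod_cast Nat.pos_of_ne_zero hN0)
        exact_mod_cast hNu.le
      rwa [Real.log_pow] at h3
    have h3 : Real.log b ≤ b := (Real.log_le_sub_one_of_pos (by linarith)).trans (by linarith)
    have h4 : (r : ℝ) * (R * b) ≤ Real.log N := by
      have h5 : (r : ℝ) * (R * b) ≤ (1 / (R * b) * Real.log N) * (R * b) :=
        mul_le_mul_of_nonneg_right hr' (by positivity)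
      have h6 : (1 / (R * b) * Real.log N) * (R * b) = Real.log N := by
        field_simp
      linarith
    have h5 : (R * r : ℝ) * b ≤ K * b := by
      calc (R * r : ℝ) * b = r * (R * b) := by ring
        _ ≤ Real.log N := h4
        _ ≤ K * Real.log b := h2
        _ ≤ K * b := mul_le_mul_of_nonneg_left h3 (Nat.cast_nonneg _)
    have h6 := le_of_mul_le_mul_right h5 (by linarith)
    exact_mod_cast h6
  have hsph : sphere b N F r = Pool.Agent.TH894.SM.Sph b K N (Ico 1 (K - 1)) F r := by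
    unfold sphere Pool.Agent.TH894.SM.Sph
    rw [← hK]
    ext n
    simp only [mem_filter]
    rfl
  have hVsub : Ico 1 (K - 1) ⊆ range K := by
    intro i hi
    rw [mem_Ico] at hi
    rw [mem_range]
    omega
  have hNn : n₀ ≤ b ^ (K - 1) := by
    have h2 : b * n₀ < b * b ^ (K - 1) := by
      calc b * n₀ ≤ N := by omega
        _ < b ^ K := hNu
        _ = b * b ^ (K - 1) := by
          rw [← pow_succ']
          congr 1
          rw [hK]
          unfold len
          omega
    exact (lt_of_mul_lt_mul_left h2 (Nat.zero_le _)).le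
  have hbig : ∀ n ∈ Pool.Agent.TH894.SM.Sph b K N (Ico 1 (K - 1)) F r, n₀ ≤ n := by
    intro n hn
    rw [← hsph] at hn
    unfold sphere at hn
    rw [mem_filter, ← hK] at hn
    have hK1 : K - 1 ∈ range K := by
      rw [mem_range, hK]
      unfold len
      omega
    have h2 : digit b (K - 1) n = digit b (K - 1) N := by
      by_contra hcon
      have := (hn.2.1 (K - 1) hK1 hcon).1
      rw [mem_Ico] at this
      omega
    have hKK : b ^ K = b * b ^ (K - 1) := by
      rw [← pow_succ']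
      congr 1
      rw [mem_range] at hK1
      omega
    have hpos : 0 < b ^ (K - 1) := by positivity
    have h3 : N / b ^ (K - 1) < b := by
      rw [Nat.div_lt_iff_lt_mul hpos, ← hKK]
      exact hNu
    have h4 : 1 ≤ N / b ^ (K - 1) := by
      rw [Nat.one_le_div_iff hpos]
      exact hNl
    have h5 : 1 ≤ n / b ^ (K - 1) := by
      unfold digit at h2
      rw [Nat.mod_eq_of_lt h3] at h2
      have : n / b ^ (K - 1) % b ≤ n / b ^ (K - 1) := Nat.mod_le _ _
      omega
    rw [Nat.one_le_div_iff hpos] at h5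
    exact hNn.trans h5
  unfold exceptions
  rw [hsph]
  refine Pool.Agent.TH894.SM.sphere_avg b K N hb hNu (Ico 1 (K - 1)) hVsub F m hm hF r ε _ (filter_subset _ _) ?_
  intro f hf
  refine (h1 K hKk N hNl hNu f hf r hrl hru _ (filter_subset _ _) ?_).trans (le_of_eq ?_)
  · intro T hT
    rw [mem_filter, mem_filter] at hT
    refine ⟨hT.2.2.1.two_dvd, fun h6 => hT.2.2.2 (hgood _ ?_ hT.2.2.1 h6)⟩
    exact hbig _ hT.2.1
  · rw [card_powersetCard, Nat.card_Ico]
    congr 3


/-- The number of primes `p` with `√n < p < n / 2` such that `n - p` is prime. -/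
def K' (n : ℕ) : ℕ := ((Ioo (Nat.sqrt n) (n / 2)).filter (fun p => p.Prime ∧ (n - p).Prime)).card

/-- The number of the `p` such that `p` and `n - p` are odd primes and `p < n - p`. -/
def D (n : ℕ) : ℕ :=
  ((range n).filter (fun p => p.Prime ∧ p ≠ 2 ∧ (n - p).Prime ∧ n - p ≠ 2 ∧ p < n - p)).card

lemma K'_le (n : ℕ) : K' n ≤ Pool.Agent.TH894.GK.K n := by
  unfold K' Pool.Agent.TH894.GK.K
  apply card_le_card
  intro p hp
  rw [mem_filter, mem_Ioo] at hp
  rw [mem_filter, mem_Ioc]
  exact ⟨⟨hp.1.1, hp.1.2.le⟩, hp.2⟩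

lemma K_le (n : ℕ) : Pool.Agent.TH894.GK.K n ≤ K' n + 1 := by
  unfold K' Pool.Agent.TH894.GK.K
  have hsub : (Ioc (Nat.sqrt n) (n / 2)).filter (fun p => p.Prime ∧ (n - p).Prime) ⊆
      (Ioo (Nat.sqrt n) (n / 2)).filter (fun p => p.Prime ∧ (n - p).Prime) ∪ {n / 2} := by
    intro p hp
    rw [mem_filter, mem_Ioc] at hp
    rw [mem_union, mem_filter, mem_Ioo, mem_singleton]
    by_cases h : p = n / 2
    · exact Or.inr h
    · exact Or.inl ⟨⟨hp.1.1, by omega⟩, hp.2⟩
  refine (card_le_card hsub).trans ((card_union_le _ _).trans ?_)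
  rw [card_singleton]

lemma K'_le_D (n : ℕ) (hn : 2 ∣ n) (h16 : 16 ≤ n) : K' n ≤ D n := by
  have hs4 : 4 ≤ Nat.sqrt n := by
    rw [Nat.le_sqrt]
    omega
  unfold K' D
  apply card_le_card
  intro p hp
  rw [mem_filter, mem_Ioo] at hp
  rw [mem_filter, mem_range]
  obtain ⟨⟨h1, h2⟩, h3, h4⟩ := hp
  exact ⟨by omega, h3, by omega, h4, by omega, by omega⟩

lemma D_le (n : ℕ) (_hn : 2 ∣ n) : D n ≤ K' n + (Nat.sqrt n + 1) := by
  unfold K' D
  have hsub : (range n).filter (fun p => p.Prime ∧ p ≠ 2 ∧ (n - p).Prime ∧ n - p ≠ 2 ∧ p < n - p) ⊆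
      (Ioo (Nat.sqrt n) (n / 2)).filter (fun p => p.Prime ∧ (n - p).Prime) ∪ range (Nat.sqrt n + 1) := by
    intro p hp
    rw [mem_filter, mem_range] at hp
    rw [mem_union, mem_filter, mem_Ioo, mem_range]
    obtain ⟨h1, h2, h3, h4, h5, h6⟩ := hp
    by_cases h : p < Nat.sqrt n + 1
    · exact Or.inr h
    · exact Or.inl ⟨⟨by omega, by omega⟩, h2, h4⟩
  refine (card_le_card hsub).trans ((card_union_le _ _).trans ?_)
  rw [card_range]

theorem strict (ε : ℝ) (hε : 0 < ε) : ∃ (η : ℝ) (n₀ : ℕ), 0 < η ∧ ∀ n : ℕ, n₀ ≤ n → Even n →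
    |(g n : ℝ) - HL n| ≤ η * HL n →
    0 < K' n ∧ |(K' n : ℝ) - HL n / 2| ≤ ε * (HL n / 2) ∧ |(D n : ℝ) - HL n / 2| ≤ ε * (HL n / 2) := by
  obtain ⟨e, he⟩ : ∃ e, e = min ε (1 / 2) := ⟨_, rfl⟩
  have he0 : 0 < e := by rw [he]; exact lt_min hε (by norm_num)
  have hee : e ≤ ε := by rw [he]; exact min_le_left _ _
  have he2 : e ≤ 1 / 2 := by rw [he]; exact min_le_right _ _
  obtain ⟨n₀, h0⟩ := Pool.Agent.TH894.GK.small_ev (e / 4) (by linarith)
  obtain ⟨η, n₁, hη, h1⟩ := Pool.Agent.TH894.GK.window (e / 2) (by linarith)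
  refine ⟨η, n₀ + n₁ + 16, hη, fun n hn hev hg => ?_⟩
  obtain ⟨h2, -⟩ := h1 n (by omega) hev hg
  have h3 := h0 n (by omega)
  have h4 := Pool.Agent.TH894.GK.HL_ge n
  have hs : ((Nat.sqrt n : ℕ) : ℝ) ≤ √(n : ℝ) := Real.nat_sqrt_le_real_sqrt
  have hsq := Real.sqrt_nonneg (n : ℝ)
  have h5 : 2 * √(n : ℝ) + 3 ≤ e / 4 * HL n := h3.trans (mul_le_mul_of_nonneg_left h4 (by linarith))
  have hHL : 0 < HL n := by
    by_contra hcon
    push Not at hcon
    nlinarith
  have k1 : (K' n : ℝ) ≤ Pool.Agent.TH894.GK.K n := by exact_mod_cast K'_le n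
  have k2 : (Pool.Agent.TH894.GK.K n : ℝ) ≤ K' n + 1 := by exact_mod_cast K_le n
  have k3 : (K' n : ℝ) ≤ D n := by exact_mod_cast K'_le_D n hev.two_dvd (by omega)
  have k4 : (D n : ℝ) ≤ K' n + ((Nat.sqrt n : ℕ) + 1) := by exact_mod_cast D_le n hev.two_dvd
  have hH : Pool.Agent.TH894.GK.K n = Pool.Agent.TH894.GK.K n := rfl
  rw [abs_le] at h2
  have r1 : |(K' n : ℝ) - HL n / 2| ≤ e * (HL n / 2) := by
    rw [abs_le]
    constructor <;> nlinarith [h2.1, h2.2]
  have r2 : |(D n : ℝ) - HL n / 2| ≤ e * (HL n / 2) := by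
    rw [abs_le]
    constructor <;> nlinarith [h2.1, h2.2]
  refine ⟨?_, r1.trans (mul_le_mul_of_nonneg_right hee (by linarith)), r2.trans (mul_le_mul_of_nonneg_right hee (by linarith))⟩
  have h7 : (0 : ℝ) < K' n := by
    rw [abs_le] at r1
    nlinarith [r1.1]
  exact_mod_cast h7

end Pool.Agent.Q145.GB2
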