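import Pool.Agent.Y880.RS.G5b

/-!
Polynomials with an arbitrary constant term: arguments in progressions, values in a dense set of large primes.
-/

set_option autoImplicit false

open Finset Polynomial

namespace Pool.Agent.Q145.Shift

/-- eventually `M ≤ δ X / log X` -/
lemma le_pnt (δ : ℝ) (hδ : 0 < δ) (M : ℕ) : ∃ X₀ : ℕ, ∀ X : ℕ, X₀ ≤ X → (M : ℝ) ≤ δ * (X / Real.log X) := by
  have h := Real.isLittleO_log_id_atTop.bound (c := δ / (M + 1)) (by positivity)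
  rw [Filter.eventually_atTop] at h
  obtain ⟨a, ha⟩ := h
  refine ⟨max ⌈a⌉₊ 3, fun X hX => ?_⟩
  have h1 : a ≤ X := (Nat.le_ceil a).trans (by exact_mod_cast (le_max_left _ _).trans hX)
  have h3 : (3 : ℝ) ≤ X := by exact_mod_cast (le_max_right _ _).trans hX
  have hl : 0 < Real.log X := Real.log_pos (by linarith)
  have h2 := ha _ h1
  simp only [id_eq, Real.norm_eq_abs] at h2
  rw [abs_of_pos hl, abs_of_pos (by linarith : (0 : ℝ) < X)] at h2
  rw [mul_div_assoc', le_div_iff₀ hl]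
  have hM : (0 : ℝ) ≤ M := Nat.cast_nonneg M
  have h4 : (M : ℝ) * Real.log X ≤ (M + 1) * Real.log X := by nlinarith
  refine h4.trans ?_
  calc ((M : ℝ) + 1) * Real.log X ≤ (M + 1) * (δ / (M + 1) * X) := by gcongr
    _ = δ * X := by field_simp

lemma card_big (S : Finset ℕ) (M : ℕ) : (S.card : ℝ) - (M + 1) ≤ (S.filter (fun x => M < x)).card := by
  have h1 : S ⊆ S.filter (fun x => M < x) ∪ range (M + 1) := by
    intro x hx
    rw [mem_union, mem_filter, mem_range]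
    by_cases h : M < x
    · exact Or.inl ⟨hx, h⟩
    · exact Or.inr (by omega)
  have h2 := (card_le_card h1).trans (card_union_le _ _)
  rw [card_range] at h2
  have h3 : (S.card : ℝ) ≤ (S.filter (fun x => M < x)).card + (M + 1) := by exact_mod_cast h2
  linarith

/-- The theorem `g5` for primes larger than `M` and shifts larger than `M`. -/
theorem big (f : ℤ[X]) (hf : f.natDegree ≠ 0) (M : ℕ) (k : ℕ) (hk : 2 ≤ k) (δ ε : ℝ) (hδ : 0 < δ) (hε : 0 < ε)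
    (hε1 : ε ≤ 1) :
    ∃ B : ℕ, ∃ c : ℝ, 0 < c ∧ ∃ X₀ : ℕ, ∀ X N : ℕ, X₀ ≤ X → Real.log X ^ B ≤ N →
      N ^ (4 * f.natDegree) ≤ X → ∀ T ⊆ Icc 1 N, δ * N ≤ T.card → ∀ P ⊆ Icc 1 X,
      (∀ p ∈ P, p.Prime) → δ * (X / Real.log X) ≤ P.card →
      ∃ G ⊆ Icc 1 X, c * X ≤ G.card ∧ ∀ b ∈ G, M < b ∧ ∃ n r : ℕ, 1 ≤ r ∧
        (r : ℝ) ≤ (N : ℝ) ^ ε * Real.log X ^ B ∧
        ∀ j < k, n + j * r ∈ T ∧ ∃ p ∈ P, M < p ∧ (p : ℤ) = f.eval ((n + j * r : ℕ) : ℤ) + b := by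
  obtain ⟨B, c, hc, X₀, h⟩ := Pool.Agent.Y880.RS.G5.g5 f hf k hk (δ / 2) ε (by positivity) hε hε1
  obtain ⟨X₁, h1⟩ := le_pnt (δ / 2) (by positivity) (M + 1)
  refine ⟨B, c / 2, by positivity, max (max X₀ X₁) ⌈2 * (M + 1) / c⌉₊,
    fun X N hX hN hNX T hT hTc P hP hPp hPc => ?_⟩
  have hX0 : X₀ ≤ X := ((le_max_left _ _).trans (le_max_left _ _)).trans hX
  have hX1 : X₁ ≤ X := ((le_max_right _ _).trans (le_max_left _ _)).trans hX
  have hX2 : 2 * (M + 1) / c ≤ X :=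
    (Nat.le_ceil (2 * ((M : ℝ) + 1) / c)).trans (by exact_mod_cast (le_max_right _ _).trans hX)
  have hT2 : δ / 2 * N ≤ T.card := by
    have : (0 : ℝ) ≤ N := Nat.cast_nonneg N
    nlinarith
  have hP2 : δ / 2 * (X / Real.log X) ≤ (P.filter (fun p => M < p)).card := by
    have h2 := h1 X hX1
    have h3 := card_big P M
    push_cast at h2
    linarith
  obtain ⟨G, hG, hGc, hGb⟩ := h X N hX0 hN hNX T hT hT2 (P.filter (fun p => M < p))
    ((filter_subset _ _).trans hP) (fun p hp => hPp p (mem_filter.1 hp).1) hP2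
  refine ⟨G.filter (fun b => M < b), (filter_subset _ _).trans hG, ?_, fun b hb => ?_⟩
  · have h2 := card_big G M
    rw [div_le_iff₀ hc] at hX2
    linarith
  · rw [mem_filter] at hb
    refine ⟨hb.2, ?_⟩
    obtain ⟨n, r, h2, h3, h4⟩ := hGb b hb.1
    refine ⟨n, r, h2, h3, fun j hj => ?_⟩
    obtain ⟨h5, p, hp, hpe⟩ := h4 j hj
    rw [mem_filter] at hp
    exact ⟨h5, p, hp.1, hp.2, hpe⟩

end Pool.Agent.Q145.Shift
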